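import Pool.Agent.Y451.FM.Stm

set_option autoImplicit false

/-!
# FM-ENT: entropy of a finite law is between `0` and `log |K|`
-/

noncomputable section

namespace Pool.Agent.Y801.FM.Ent

open Pool.Agent.Y451.FM

theorem term_le {N p : ℝ} (hN : 0 < N) (hp : 0 ≤ p) :
    Real.negMulLog p ≤ p * Real.log N + 1 / N - p := by
  rcases hp.eq_or_lt with h0 | h0
  · rw [← h0, Real.negMulLog_zero]
    have : 0 < 1 / N := by positivity
    linarith
  · have h1 : 0 < 1 / (N * p) := by positivity
    have h2 := Real.log_le_sub_one_of_pos h1
    rw [one_div, Real.log_inv, Real.log_mul hN.ne' h0.ne'] at h2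
    have h3 : p * (-(Real.log N + Real.log p)) ≤ p * ((N * p)⁻¹ - 1) :=
      mul_le_mul_of_nonneg_left h2 h0.le
    have h4 : p * ((N * p)⁻¹ - 1) = 1 / N - p := by
      field_simp
    rw [h4] at h3
    unfold Real.negMulLog
    nlinarith

theorem done : S_ENT := by
  intro K _ p hp h1
  constructor
  · unfold Hent
    refine Finset.sum_nonneg fun z _ => ?_
    refine Real.negMulLog_nonneg (hp z) ?_
    rw [← h1]
    exact Finset.single_le_sum (fun i _ => hp i) (Finset.mem_univ z)
  · have hne : Nonempty K := by
      by_contra hcon
      rw [not_nonempty_iff] at hcon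
      rw [Finset.univ_eq_empty, Finset.sum_empty] at h1
      exact zero_ne_one h1
    have hN : (0 : ℝ) < Fintype.card K := by
      exact_mod_cast Fintype.card_pos
    unfold Hent
    calc ∑ z, Real.negMulLog (p z)
        ≤ ∑ z, (p z * Real.log (Fintype.card K) + 1 / (Fintype.card K : ℝ) - p z) :=
          Finset.sum_le_sum fun z _ => term_le hN (hp z)
      _ = Real.log (Fintype.card K) := by
          rw [Finset.sum_sub_distrib, Finset.sum_add_distrib, ← Finset.sum_mul, h1,
            Finset.sum_const, Finset.card_univ, nsmul_eq_mul]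
          field_simp
          ring

end Pool.Agent.Y801.FM.Ent

end
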