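import Pool.Agent.Y451.FM.Stm

set_option autoImplicit false

/-!
# FM-MAX: maximal coupling of finite measures
-/

noncomputable section

namespace Pool.Agent.Y801.FM.Max

open Pool.Agent.Y451.FM

/-- coupling of two finite measures of the same total mass -/
theorem couple {S : Type} [Fintype S] [DecidableEq S] (a b : S → ℝ) (ha : ∀ s, 0 ≤ a s)
    (hb : ∀ s, 0 ≤ b s) (hab : ∑ s, a s = ∑ s, b s) :
    ∃ κ : S → S → ℝ, (∀ s s', 0 ≤ κ s s') ∧ (∀ s, ∑ s', κ s s' = a s) ∧
      (∀ s', ∑ s, κ s s' = b s') ∧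
      ∑ s, ∑ s', (if s = s' then 0 else κ s s') = (1 / 2) * ∑ s, |a s - b s| := by
  set m : S → ℝ := fun s => min (a s) (b s) with hm
  set r : ℝ := ∑ s, (a s - m s) with hr
  have ha' : ∀ s, 0 ≤ a s - m s := fun s => sub_nonneg.2 (min_le_left _ _)
  have hb' : ∀ s, 0 ≤ b s - m s := fun s => sub_nonneg.2 (min_le_right _ _)
  have hm0 : ∀ s, 0 ≤ m s := fun s => le_min (ha s) (hb s)
  have hr0 : 0 ≤ r := Finset.sum_nonneg fun s _ => ha' s
  have hrb : r = ∑ s, (b s - m s) := by
    rw [hr, Finset.sum_sub_distrib, Finset.sum_sub_distrib, hab]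
  have hprod : ∀ s, (a s - m s) * (b s - m s) = 0 := by
    intro s
    rcases le_total (a s) (b s) with h | h
    · rw [show m s = a s from min_eq_left h, sub_self, zero_mul]
    · rw [show m s = b s from min_eq_right h, sub_self, mul_zero]
  have habs : ∀ s, |a s - b s| = (a s - m s) + (b s - m s) := by
    intro s
    rcases le_total (a s) (b s) with h | h
    · rw [show m s = a s from min_eq_left h, abs_of_nonpos (by linarith)]; ring
    · rw [show m s = b s from min_eq_right h, abs_of_nonneg (by linarith)]; ring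
  have hrA : ∀ s, (a s - m s) * r / r = a s - m s := by
    intro s
    rcases hr0.eq_or_lt with h0 | h0
    · have h1 : a s - m s ≤ r := Finset.single_le_sum (fun i _ => ha' i) (Finset.mem_univ s)
      have h2 : a s - m s = 0 := le_antisymm (by rw [h0]; exact h1) (ha' s)
      rw [h2]; simp
    · field_simp
  have hrB : ∀ s, r * (b s - m s) / r = b s - m s := by
    intro s
    rcases hr0.eq_or_lt with h0 | h0
    · have h1 : b s - m s ≤ ∑ s, (b s - m s) :=
        Finset.single_le_sum (fun i _ => hb' i) (Finset.mem_univ s)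
      rw [← hrb] at h1
      have h2 : b s - m s = 0 := le_antisymm (by rw [h0]; exact h1) (hb' s)
      rw [h2]; simp
    · field_simp
  refine ⟨fun s s' => (if s = s' then m s else 0) + (a s - m s) * (b s' - m s') / r, ?_, ?_, ?_, ?_⟩
  · intro s s'
    have h1 : 0 ≤ (if s = s' then m s else 0) := by
      split_ifs
      · exact hm0 s
      · exact le_rfl
    have h2 : 0 ≤ (a s - m s) * (b s' - m s') / r :=
      div_nonneg (mul_nonneg (ha' s) (hb' s')) hr0
    exact add_nonneg h1 h2
  · intro s
    rw [Finset.sum_add_distrib, Finset.sum_ite_eq, if_pos (Finset.mem_univ s), ← Finset.sum_div,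
      ← Finset.mul_sum, ← hrb, hrA]
    ring
  · intro s'
    rw [Finset.sum_add_distrib, ← Finset.sum_div, ← Finset.sum_mul, ← hr, hrB]
    have : ∑ s, (if s = s' then m s else 0) = m s' := by
      rw [Finset.sum_ite_eq' Finset.univ s' m, if_pos (Finset.mem_univ s')]
    rw [this]
    ring
  · have h1 : ∀ s s', (if s = s' then (0 : ℝ) else
        ((if s = s' then m s else 0) + (a s - m s) * (b s' - m s') / r)) =
        (a s - m s) * (b s' - m s') / r := by
      intro s s'
      by_cases h : s = s'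
      · subst h
        rw [if_pos rfl, hprod s, zero_div]
      · rw [if_neg h, if_neg h, zero_add]
    have h2 : ∀ s, ∑ s', (a s - m s) * (b s' - m s') / r = a s - m s := by
      intro s
      rw [← Finset.sum_div, ← Finset.mul_sum, ← hrb, hrA]
    simp only [h1, h2, habs]
    rw [Finset.sum_add_distrib, ← hrb, ← hr]
    ring

theorem done : S_MAX := by
  intro S L _ _ _ q P hq hq1 hP
  have key : ∀ l : L, ∃ κ : S → S → ℝ, (∀ s s', 0 ≤ κ s s') ∧ (∀ s, ∑ s', κ s s' = P l s) ∧
      (∀ s', ∑ s, κ s s' = (∑ s, P l s) * q s') ∧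
      ∑ s, ∑ s', (if s = s' then 0 else κ s s') =
        (1 / 2) * ∑ s, |P l s - q s * ∑ s', P l s'| := by
    intro l
    obtain ⟨κ, h1, h2, h3, h4⟩ := couple (P l) (fun s => q s * ∑ s', P l s') (hP l)
      (fun s => mul_nonneg (hq s) (Finset.sum_nonneg fun s' _ => hP l s'))
      (by rw [← Finset.sum_mul, hq1, one_mul])
    exact ⟨κ, h1, h2, fun s' => by rw [h3 s', mul_comm], h4⟩
  choose κ h1 h2 h3 h4 using key
  exact ⟨κ, h1, h2, h3, h4⟩

end Pool.Agent.Y801.FM.Max

end
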