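import Pool.Agent.Y451.FM.Stm

set_option autoImplicit false

/-!
# FM-PIN: a weak Pinsker inequality for finite laws
-/

noncomputable section

namespace Pool.Agent.Y801.FM.Pin

open Pool.Agent.Y451.FM

/-- one term of the mutual information -/
theorem term_ge {a q P : ℝ} (ha : 0 ≤ a) (hq : a ≤ q) (hP : a ≤ P) :
    (Real.sqrt a - Real.sqrt (q * P)) ^ 2 + a - q * P ≤
      a * (-Real.log P) - q * Real.negMulLog (a / q) := by
  have hb : 0 ≤ q * P := mul_nonneg (ha.trans hq) (ha.trans hP)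
  have hsq : (Real.sqrt a - Real.sqrt (q * P)) ^ 2 =
      a - 2 * (Real.sqrt a * Real.sqrt (q * P)) + q * P := by
    have h1 := Real.sq_sqrt ha
    have h2 := Real.sq_sqrt hb
    nlinarith
  rcases ha.eq_or_lt with h0 | h0
  · rw [← h0]
    rw [Real.sqrt_zero, zero_div, Real.negMulLog_zero]
    have h2 := Real.sq_sqrt hb
    nlinarith
  · have hq0 : 0 < q := lt_of_lt_of_le h0 hq
    have hP0 : 0 < P := lt_of_lt_of_le h0 hP
    have hb0 : 0 < q * P := mul_pos hq0 hP0
    have h1 : a * (-Real.log P) - q * Real.negMulLog (a / q) = a * Real.log (a / (q * P)) := by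
      unfold Real.negMulLog
      rw [Real.log_div h0.ne' hq0.ne', Real.log_div h0.ne' hb0.ne', Real.log_mul hq0.ne' hP0.ne']
      field_simp
      ring
    have h2 : Real.log (a / (q * P)) = -(2 * Real.log (Real.sqrt (q * P) / Real.sqrt a)) := by
      rw [Real.log_div h0.ne' hb0.ne', Real.log_div (Real.sqrt_pos.2 hb0).ne'
        (Real.sqrt_pos.2 h0).ne', Real.log_sqrt hb0.le, Real.log_sqrt h0.le]
      ring
    have h3 : Real.log (Real.sqrt (q * P) / Real.sqrt a) ≤ Real.sqrt (q * P) / Real.sqrt a - 1 :=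
      Real.log_le_sub_one_of_pos (div_pos (Real.sqrt_pos.2 hb0) (Real.sqrt_pos.2 h0))
    have h4 : a * (Real.sqrt (q * P) / Real.sqrt a) = Real.sqrt a * Real.sqrt (q * P) := by
      have hs := Real.sqrt_pos.2 h0
      have h5 : a = Real.sqrt a * Real.sqrt a := (Real.mul_self_sqrt ha).symm
      calc a * (Real.sqrt (q * P) / Real.sqrt a)
          = (Real.sqrt a * Real.sqrt a) * (Real.sqrt (q * P) / Real.sqrt a) := by rw [← h5]
        _ = Real.sqrt a * Real.sqrt (q * P) := by
            field_simp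
    rw [h1, h2, hsq]
    nlinarith

theorem done : S_PIN := by
  intro S K _ _ q p hq hq1 hp hpq
  set P : K → ℝ := fun z => ∑ s, p s z with hPdef
  have hpq' : ∀ s z, p s z ≤ q s := fun s z => by
    rw [← hpq s]; exact Finset.single_le_sum (fun i _ => hp s i) (Finset.mem_univ z)
  have hpP : ∀ s z, p s z ≤ P z := fun s z =>
    Finset.single_le_sum (f := fun s => p s z) (fun i _ => hp i z) (Finset.mem_univ s)
  have hP0 : ∀ z, 0 ≤ P z := fun z => Finset.sum_nonneg fun s _ => hp s z
  have hP1 : ∑ z, P z = 1 := by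
    rw [hPdef, Finset.sum_comm]
    rw [← hq1]
    exact Finset.sum_congr rfl fun s _ => hpq s
  have hb0 : ∀ s z, 0 ≤ q s * P z := fun s z => mul_nonneg (hq s) (hP0 z)
  -- the mutual information
  have hI : Hent P - ∑ s, q s * Hent (fun z => p s z / q s) =
      ∑ s, ∑ z, (p s z * (-Real.log (P z)) - q s * Real.negMulLog (p s z / q s)) := by
    have h1 : Hent P = ∑ s, ∑ z, p s z * (-Real.log (P z)) := by
      rw [Finset.sum_comm]
      unfold Hent
      refine Finset.sum_congr rfl fun z _ => ?_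
      rw [← Finset.sum_mul]
      unfold Real.negMulLog
      ring
    have h2 : ∑ s, q s * Hent (fun z => p s z / q s) =
        ∑ s, ∑ z, q s * Real.negMulLog (p s z / q s) := by
      refine Finset.sum_congr rfl fun s _ => ?_
      unfold Hent
      rw [Finset.mul_sum]
    rw [h1, h2, ← Finset.sum_sub_distrib]
    refine Finset.sum_congr rfl fun s _ => ?_
    rw [← Finset.sum_sub_distrib]
  have hA : ∑ s, ∑ z, p s z = 1 := by
    rw [← hq1]; exact Finset.sum_congr rfl fun s _ => hpq s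
  have hB : ∑ s, ∑ z, q s * P z = 1 := by
    have : ∀ s, ∑ z, q s * P z = q s := fun s => by rw [← Finset.mul_sum, hP1, mul_one]
    rw [Finset.sum_congr rfl fun s _ => this s, hq1]
  set H : ℝ := ∑ s, ∑ z, (Real.sqrt (p s z) - Real.sqrt (q s * P z)) ^ 2 with hH
  have hHI : H ≤ Hent P - ∑ s, q s * Hent (fun z => p s z / q s) := by
    rw [hI]
    have h1 : H = ∑ s, ∑ z, ((Real.sqrt (p s z) - Real.sqrt (q s * P z)) ^ 2 + p s z - q s * P z) := by
      have : ∀ s, ∑ z, ((Real.sqrt (p s z) - Real.sqrt (q s * P z)) ^ 2 + p s z - q s * P z) =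
          ∑ z, (Real.sqrt (p s z) - Real.sqrt (q s * P z)) ^ 2 + ∑ z, p s z - ∑ z, q s * P z := by
        intro s
        rw [Finset.sum_sub_distrib, Finset.sum_add_distrib]
      rw [Finset.sum_congr rfl fun s _ => this s, Finset.sum_sub_distrib, Finset.sum_add_distrib,
        hA, hB]
      ring
    rw [h1]
    exact Finset.sum_le_sum fun s _ => Finset.sum_le_sum fun z _ =>
      term_ge (hp s z) (hpq' s z) (hpP s z)
  have hH0 : 0 ≤ H := Finset.sum_nonneg fun s _ => Finset.sum_nonneg fun z _ => sq_nonneg _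
  -- Cauchy-Schwarz
  have hCS : (∑ s, ∑ z, |p s z - q s * P z|) ^ 2 ≤ H * 4 := by
    have h1 : ∀ s z, |p s z - q s * P z| =
        |Real.sqrt (p s z) - Real.sqrt (q s * P z)| *
          (Real.sqrt (p s z) + Real.sqrt (q s * P z)) := by
      intro s z
      have h2 := Real.mul_self_sqrt (hp s z)
      have h3 := Real.mul_self_sqrt (hb0 s z)
      have h4 : 0 ≤ Real.sqrt (p s z) + Real.sqrt (q s * P z) :=
        add_nonneg (Real.sqrt_nonneg _) (Real.sqrt_nonneg _)
      rw [← abs_of_nonneg h4, ← abs_mul]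
      congr 1
      nlinarith
    have h2 : ∑ s, ∑ z, |p s z - q s * P z| =
        ∑ x : S × K, |Real.sqrt (p x.1 x.2) - Real.sqrt (q x.1 * P x.2)| *
          (Real.sqrt (p x.1 x.2) + Real.sqrt (q x.1 * P x.2)) := by
      rw [Fintype.sum_prod_type]
      exact Finset.sum_congr rfl fun s _ => Finset.sum_congr rfl fun z _ => h1 s z
    rw [h2]
    refine (Finset.sum_mul_sq_le_sq_mul_sq _ _ _).trans ?_
    have h3 : ∑ x : S × K, |Real.sqrt (p x.1 x.2) - Real.sqrt (q x.1 * P x.2)| ^ 2 = H := by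
      rw [Fintype.sum_prod_type]
      exact Finset.sum_congr rfl fun s _ => Finset.sum_congr rfl fun z _ => sq_abs _
    have h4 : ∑ x : S × K, (Real.sqrt (p x.1 x.2) + Real.sqrt (q x.1 * P x.2)) ^ 2 ≤ 4 := by
      have h5 : ∀ x : S × K, (Real.sqrt (p x.1 x.2) + Real.sqrt (q x.1 * P x.2)) ^ 2 ≤
          2 * p x.1 x.2 + 2 * (q x.1 * P x.2) := by
        intro x
        have h6 := Real.sq_sqrt (hp x.1 x.2)
        have h7 := Real.sq_sqrt (hb0 x.1 x.2)
        nlinarith [sq_nonneg (Real.sqrt (p x.1 x.2) - Real.sqrt (q x.1 * P x.2))]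
      refine (Finset.sum_le_sum fun x _ => h5 x).trans ?_
      rw [Finset.sum_add_distrib, ← Finset.mul_sum, ← Finset.mul_sum, Fintype.sum_prod_type,
        Fintype.sum_prod_type, hA, hB]
      norm_num
    rw [h3]
    exact mul_le_mul_of_nonneg_left h4 hH0
  calc ((1 / 2) * ∑ s, ∑ z, |p s z - q s * ∑ s', p s' z|) ^ 2
      = (1 / 4) * (∑ s, ∑ z, |p s z - q s * P z|) ^ 2 := by ring
    _ ≤ (1 / 4) * (H * 4) := mul_le_mul_of_nonneg_left hCS (by norm_num)
    _ = H := by ring
    _ ≤ _ := hHI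

end Pool.Agent.Y801.FM.Pin

end
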